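import Mathlib
import Pool.Agent.H598R2.Collapse
import Pool.Agent.R543.DMVP.Sound
import Pool.Agent.R543.DMVP.Compl

/-!
# Foremost coverage of periodic temporal trees: hardness when the period is part of the input

Single-agent DMVP on periodic temporal trees, with the period `p` part of the input, is NP-hard
even on trees of maximum degree at most three.  So, unless `P = NP`, no algorithm computes the cover
time in time polynomial in the size of the input (which is polynomial in `n` and `p`), neither on
all trees nor on trees of bounded maximum degree.

Reduction from 3SAT.  The tree is a caterpillar: a path (always present) with one leaf hanging from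
each of its vertices.  All leaf edges are present only at multiples of a large number `W`, which
leaves the agent enough time to walk between any two leaves in between.  A variable leaf has three
such times, `a < b < c`; to visit it and to return in time, the agent has to spend the whole
interval from `a` to `b` (the variable is true) or from `b` to `c` (the variable is false) there.
The leaf of a clause has, for each literal of the clause, two consecutive times in that one of the
two intervals of its variable in which the agent is free if the literal is true.  One last leaf has
its only time directly before the deadline.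

Complexity notions are those of `Pool.Agent.NPC.Defs`: polynomial time is Mathlib's
`Turing.TM2ComputableInPolyTime` on bit strings, `NP` is defined by certificates, hardness is under
polynomial-time many-one reductions, and data (numbers in binary, pairs, lists) are coded by
bit strings (`bits`).  The notions of the problem are defined in `Pool.Agent.R543.DMVP.Defs`.
-/

namespace Pool.Agent.Results.MP_ce2681_lc.CoverNPHard

open Pool.Agent.NPC Pool.Agent.R543.DMVP

/-- the instances of the reduction -/
theorem hard : HardPr (fun J : Inst × ℕ => J.1.Valid ∧ J.1.MaxDeg3)
    (fun J : Inst × ℕ => J.1.CoveredBy J.2) :=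
  hardPr_SAT3b.trans (f := fun φ => (NPC.R543.DMVP.inst φ, NPC.R543.DMVP.TT φ.length))
    NPC.R543.DMVP.poly_inst
    (fun φ hφ => ⟨NPC.R543.DMVP.valid hφ.2.1 (List.length_pos_iff.2 hφ.2.2),
      NPC.R543.DMVP.maxDeg3 φ⟩)
    (fun φ hφ => ⟨NPC.R543.DMVP.compl hφ.2.1 (List.length_pos_iff.2 hφ.2.2),
      NPC.R543.DMVP.sound hφ.2.1 (List.length_pos_iff.2 hφ.2.2)⟩)

/-- **Hardness of foremost coverage of periodic temporal trees of maximum degree three.**

(i) Given a periodic temporal tree `I` of maximum degree at most three (tree, start vertex and the
snapshots of one period; the period is part of the input) and a number `t`, deciding whether the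
cover time is at most `t` is NP-hard.

(ii) If some polynomial-time algorithm computes the cover time of every periodic temporal tree of
maximum degree at most three, then every language in `NP` is decidable in polynomial time. -/
theorem result :
    NPHardP (fun J : Inst × ℕ => J.1.Valid ∧ J.1.MaxDeg3 ∧ J.1.CoveredBy J.2) ∧
    ((∃ A : List Bool → List Bool, PolyTime A ∧
        ∀ I : Inst, I.Valid → I.MaxDeg3 → ∀ c, I.IsCoverTime c → A (bits I) = bits c) →
      ∀ L : Set (List Bool), InNP L → InP L) := by
  refine ⟨HardI.toNPHardP ?_, ?_⟩
  · intro L hL
    obtain ⟨f, hf, hpr, hfL⟩ := hard L hL
    exact ⟨f, hf, fun x => (hfL x).trans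
      ⟨fun h => ⟨(hpr x).1, (hpr x).2, h⟩, fun h => h.2.2⟩⟩
  · rintro ⟨A, hA, hAc⟩
    classical
    refine NPC.H598R2.collapse_fun
      (c := fun I : Inst => if h : I.Valid then (exists_coverTime h).choose else 0) hard ?_ hA ?_
    · rintro ⟨I, t⟩ ⟨hI, _⟩
      simp only at hI ⊢
      rw [dif_pos hI]
      exact coveredBy_iff (exists_coverTime hI).choose_spec
    · rintro ⟨I, t⟩ ⟨hI, h3⟩
      simp only at hI h3 ⊢
      rw [dif_pos hI]
      exact hAc I hI h3 _ (exists_coverTime hI).choose_spec

end Pool.Agent.Results.MP_ce2681_lc.CoverNPHard
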